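import Pool.Agent.C4W.Weighted

/-!
# The number of cliques of a given size in a graph without induced 4-cycle
-/

set_option autoImplicit false
set_option linter.unusedSectionVars false

open Finset

namespace Pool.Agent.C4B

variable {V : Type*} [Fintype V]

open Classical in
/-- the cliques with `j` vertices -/
noncomputable def cliques (G : SimpleGraph V) (j : ℕ) : Finset (Finset V) :=
  (powersetCard j univ).filter (fun T : Finset V => G.IsClique (T : Set V))

open Classical in
/-- the common closed neighbourhood of `T` -/
noncomputable def clo (G : SimpleGraph V) (T : Finset V) : Finset V :=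
  univ.filter (fun x => ∀ t ∈ T, x = t ∨ G.Adj x t)

open Classical in
/-- the common neighbourhood of two vertices that are distinct and not adjacent -/
noncomputable def mid (G : SimpleGraph V) (p : V × V) : Finset V :=
  univ.filter (fun x => p.1 ≠ p.2 ∧ ¬ G.Adj p.1 p.2 ∧ G.Adj p.1 x ∧ G.Adj p.2 x)

lemma mem_cliques (G : SimpleGraph V) (j : ℕ) (T : Finset V) :
    T ∈ cliques G j ↔ #T = j ∧ G.IsClique (T : Set V) := by
  classical
  simp [cliques, mem_powersetCard]

lemma mid_clique {G : SimpleGraph V} (h : Pool.Agent.C4D.NoC4 G) (p : V × V) :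
    G.IsClique (mid G p : Set V) := by
  classical
  intro a ha b hb hab
  simp only [mid, coe_filter, mem_univ, true_and, Set.mem_setOf_eq] at ha hb
  exact h p.1 p.2 a b ha.1 ha.2.1 hab ha.2.2.1 hb.2.2.1 ha.2.2.2 hb.2.2.2

/-- either the common closed neighbourhood is a clique, or `T` lies in some `mid G p` -/
lemma dichotomy (G : SimpleGraph V) (T : Finset V) :
    G.IsClique (clo G T : Set V) ∨ ∃ p : V × V, T ⊆ mid G p := by
  classical
  by_contra hcon
  push Not at hcon
  obtain ⟨h1, h2⟩ := hcon
  apply h1
  intro u hu v hv huv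
  by_contra hadj
  apply h2 (u, v)
  simp only [clo, coe_filter, mem_univ, true_and, Set.mem_setOf_eq] at hu hv
  intro t ht
  simp only [mid, mem_filter, mem_univ, true_and]
  refine ⟨huv, hadj, ?_, ?_⟩
  · rcases hu t ht with h | h
    · subst h
      rcases hv u ht with h' | h'
      · exact absurd h'.symm huv
      · exact absurd h'.symm hadj
    · exact h
  · rcases hv t ht with h | h
    · subst h
      rcases hu v ht with h' | h'
      · exact absurd h' huv
      · exact absurd h' hadj
    · exact h

lemma card_clique_le (G : SimpleGraph V) {K : Finset V} (hK : G.IsClique (K : Set V)) :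
    #K ≤ G.cliqueNum := hK.card_le_cliqueNum

theorem cliques_succ {G : SimpleGraph V} (h : Pool.Agent.C4D.NoC4 G) (j : ℕ) :
    #(cliques G (j + 1)) ≤ #(cliques G j) * G.cliqueNum + Fintype.card V ^ 3 * G.cliqueNum ^ j := by
  classical
  set A : Finset (Finset V) := (cliques G j).filter (fun T => G.IsClique (clo G T : Set V)) with hA
  set B : Finset (Finset V) := (univ : Finset (V × V)).biUnion (fun p => powersetCard j (mid G p)) with hB
  have hcov : cliques G (j + 1) ⊆
      A.biUnion (fun T => (clo G T).image (fun t => insert t T)) ∪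
        B.biUnion (fun T => univ.image (fun t => insert t T)) := by
    intro T hT
    rw [mem_cliques] at hT
    obtain ⟨t, ht⟩ := card_pos.1 (show 0 < #T by omega)
    have hT' : #(T.erase t) = j := by rw [card_erase_of_mem ht]; omega
    have hcl : G.IsClique ((T.erase t : Finset V) : Set V) :=
      hT.2.subset (by exact_mod_cast erase_subset t T)
    have hins : insert t (T.erase t) = T := insert_erase ht
    rcases dichotomy G (T.erase t) with h1 | ⟨p, hp⟩
    · apply mem_union_left
      rw [mem_biUnion]
      refine ⟨T.erase t, ?_, ?_⟩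
      · rw [hA, mem_filter, mem_cliques]
        exact ⟨⟨hT', hcl⟩, h1⟩
      · rw [mem_image]
        refine ⟨t, ?_, hins⟩
        simp only [clo, mem_filter, mem_univ, true_and]
        intro s hs
        right
        exact hT.2 ht (mem_of_mem_erase hs) (ne_of_mem_erase hs).symm
    · apply mem_union_right
      rw [mem_biUnion]
      refine ⟨T.erase t, ?_, ?_⟩
      · rw [hB, mem_biUnion]
        exact ⟨p, mem_univ _, mem_powersetCard.2 ⟨hp, hT'⟩⟩
      · rw [mem_image]
        exact ⟨t, mem_univ _, hins⟩
  have h1 : #(A.biUnion (fun T => (clo G T).image (fun t => insert t T))) ≤ #(cliques G j) * G.cliqueNum := by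
    refine (card_biUnion_le_card_mul A _ G.cliqueNum ?_).trans
      (Nat.mul_le_mul_right _ (card_le_card (filter_subset _ _)))
    intro T hT
    rw [hA, mem_filter] at hT
    exact card_image_le.trans (card_clique_le G hT.2)
  have h2 : #B ≤ Fintype.card V ^ 2 * G.cliqueNum ^ j := by
    refine (card_biUnion_le_card_mul _ _ (G.cliqueNum ^ j) ?_).trans ?_
    · intro p _
      rw [card_powersetCard]
      exact (Nat.choose_le_pow _ _).trans (Nat.pow_le_pow_left (card_clique_le G (mid_clique h p)) _)
    · rw [card_univ, Fintype.card_prod, sq]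
  have h3 : #(B.biUnion (fun T => univ.image (fun t => insert t T))) ≤ #B * Fintype.card V := by
    refine card_biUnion_le_card_mul B _ (Fintype.card V) ?_
    intro T _
    exact card_image_le.trans (le_of_eq card_univ)
  calc #(cliques G (j + 1)) ≤ _ := card_le_card hcov
    _ ≤ _ := card_union_le _ _
    _ ≤ #(cliques G j) * G.cliqueNum + #B * Fintype.card V := Nat.add_le_add h1 h3
    _ ≤ #(cliques G j) * G.cliqueNum + Fintype.card V ^ 3 * G.cliqueNum ^ j := by
        refine Nat.add_le_add_left ?_ _
        calc #B * Fintype.card V ≤ (Fintype.card V ^ 2 * G.cliqueNum ^ j) * Fintype.card V :=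
              Nat.mul_le_mul_right _ h2
          _ = Fintype.card V ^ 3 * G.cliqueNum ^ j := by ring

/-- A graph without induced 4-cycle has at most `(k+1) n³ ω^k` cliques with `k+1` vertices. -/
theorem card_cliques_le {G : SimpleGraph V} (h : Pool.Agent.C4D.NoC4 G) (k : ℕ) :
    #(cliques G (k + 1)) ≤ (k + 1) * Fintype.card V ^ 3 * G.cliqueNum ^ k := by
  classical
  induction k with
  | zero =>
    have h1 : #(cliques G 1) ≤ Fintype.card V := by
      refine (card_le_card (filter_subset _ _)).trans ?_
      rw [card_powersetCard, card_univ, Nat.choose_one_right]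
    calc #(cliques G (0 + 1)) ≤ Fintype.card V := h1
      _ ≤ Fintype.card V ^ 3 := Nat.le_self_pow (by norm_num) _
      _ = (0 + 1) * Fintype.card V ^ 3 * G.cliqueNum ^ 0 := by ring
  | succ k ih =>
    calc #(cliques G (k + 1 + 1))
        ≤ #(cliques G (k + 1)) * G.cliqueNum + Fintype.card V ^ 3 * G.cliqueNum ^ (k + 1) :=
          cliques_succ h (k + 1)
      _ ≤ ((k + 1) * Fintype.card V ^ 3 * G.cliqueNum ^ k) * G.cliqueNum +
            Fintype.card V ^ 3 * G.cliqueNum ^ (k + 1) :=
          Nat.add_le_add_right (Nat.mul_le_mul_right _ ih) _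
      _ = (k + 1 + 1) * Fintype.card V ^ 3 * G.cliqueNum ^ (k + 1) := by ring

end Pool.Agent.C4B
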