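import Mathlib

/-!
# Random classes and deletion
-/

namespace Pool.Agent.C4B

open Finset

lemma card_const_mul {V : Type*} [Fintype V] [DecidableEq V] (T : Finset V) (k N : ℕ)
    (hT : T.card = k + 1) :
    (univ.filter fun f : V → Fin N => ∃ c, ∀ v ∈ T, f v = c).card * N ^ k ≤
      N ^ Fintype.card V := by
  classical
  have h1 : (univ.filter fun f : V → Fin N => ∃ c, ∀ v ∈ T, f v = c) ⊆
      (univ : Finset (Fin N)).biUnion fun c =>
        Fintype.piFinset fun v => if v ∈ T then {c} else univ := by
    intro f hf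
    rw [mem_filter] at hf
    obtain ⟨c, hc⟩ := hf.2
    rw [mem_biUnion]
    refine ⟨c, mem_univ _, ?_⟩
    rw [Fintype.mem_piFinset]
    intro v
    by_cases hv : v ∈ T
    · simp [hv, hc v hv]
    · simp [hv]
  have h2 : ∀ c : Fin N, (Fintype.piFinset fun v => if v ∈ T then ({c} : Finset (Fin N)) else univ).card *
      N ^ (k + 1) = N ^ Fintype.card V := by
    intro c
    rw [Fintype.card_piFinset]
    have h3 : N ^ (k + 1) = ∏ v : V, if v ∈ T then N else 1 := by
      rw [Finset.prod_ite_mem, Finset.univ_inter, Finset.prod_const, hT]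
    rw [h3, ← Finset.prod_mul_distrib]
    have h4 : ∀ v : V, ((if v ∈ T then ({c} : Finset (Fin N)) else univ).card *
        if v ∈ T then N else 1) = N := by
      intro v
      by_cases hv : v ∈ T <;> simp [hv]
    rw [Finset.prod_congr rfl fun v _ => h4 v, Finset.prod_const, Finset.card_univ]
  have h5 : (univ.filter fun f : V → Fin N => ∃ c, ∀ v ∈ T, f v = c).card ≤
      ∑ c : Fin N, (Fintype.piFinset fun v => if v ∈ T then ({c} : Finset (Fin N)) else univ).card :=
    (Finset.card_le_card h1).trans Finset.card_biUnion_le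
  rcases Nat.eq_zero_or_pos N with h0 | h0
  · subst h0
    have h6 : (univ.filter fun f : V → Fin 0 => ∃ c, ∀ v ∈ T, f v = c).card = 0 := by
      rw [Finset.card_eq_zero, Finset.filter_eq_empty_iff]
      rintro f _ ⟨c, _⟩
      exact c.elim0
    rw [h6, zero_mul]
    exact Nat.zero_le _
  · have h6 : (univ.filter fun f : V → Fin N => ∃ c, ∀ v ∈ T, f v = c).card * N ^ (k + 1) ≤
        N * N ^ Fintype.card V := by
      calc _ ≤ (∑ c : Fin N, (Fintype.piFinset fun v =>
            if v ∈ T then ({c} : Finset (Fin N)) else univ).card) * N ^ (k + 1) :=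
            Nat.mul_le_mul_right _ h5
        _ = ∑ c : Fin N, N ^ Fintype.card V := by
            rw [Finset.sum_mul]
            exact Finset.sum_congr rfl fun c _ => h2 c
        _ = N * N ^ Fintype.card V := by simp
    have h7 : N * ((univ.filter fun f : V → Fin N => ∃ c, ∀ v ∈ T, f v = c).card * N ^ k) ≤
        N * N ^ Fintype.card V := by
      calc _ = (univ.filter fun f : V → Fin N => ∃ c, ∀ v ∈ T, f v = c).card * N ^ (k + 1) := by
            ring
        _ ≤ _ := h6
    exact Nat.le_of_mul_le_mul_left h7 h0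

theorem exists_large_avoiding {V : Type*} [Fintype V] [DecidableEq V] (F : Finset (Finset V))
    (k N : ℕ) (hN : 0 < N) (hF : ∀ T ∈ F, T.card = k + 1) :
    ∃ S : Finset V, (∀ T ∈ F, ¬ T ⊆ S) ∧
      Fintype.card V * N ^ k ≤ S.card * N ^ (k + 1) + F.card := by
  classical
  have : Nonempty (Fin N) := ⟨⟨0, hN⟩⟩
  set mono : (V → Fin N) → ℕ := fun f => (F.filter fun T => ∃ c, ∀ v ∈ T, f v = c).card with hmono
  -- a map with few monochromatic sets
  obtain ⟨f, hf⟩ : ∃ f : V → Fin N, mono f * N ^ k ≤ F.card := by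
    have h1 : ∑ f : V → Fin N, mono f * N ^ k ≤ ∑ _f : V → Fin N, F.card := by
      have e1 : ∑ f : V → Fin N, mono f =
          ∑ T ∈ F, (univ.filter fun f : V → Fin N => ∃ c, ∀ v ∈ T, f v = c).card := by
        simp only [hmono, Finset.card_filter]
        rw [Finset.sum_comm]
      rw [← Finset.sum_mul, e1, Finset.sum_mul]
      calc ∑ T ∈ F, (univ.filter fun f : V → Fin N => ∃ c, ∀ v ∈ T, f v = c).card * N ^ k
          ≤ ∑ T ∈ F, N ^ Fintype.card V :=
            Finset.sum_le_sum fun T hT => card_const_mul T k N (hF T hT)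
        _ = ∑ _f : V → Fin N, F.card := by
            simp [mul_comm]
    obtain ⟨f, _, hf⟩ := Finset.exists_le_of_sum_le (Finset.univ_nonempty) h1
    exact ⟨f, hf⟩
  set cls : Fin N → Finset V := fun c => univ.filter fun v => f v = c with hcls
  set t : Fin N → ℕ := fun c => (F.filter fun T => T ⊆ cls c).card with ht
  have hne : ∀ T ∈ F, T.Nonempty := fun T hT => by
    rw [← Finset.card_pos, hF T hT]; omega
  have hsum1 : ∑ c, (cls c).card = Fintype.card V := by
    rw [← Finset.card_univ]
    exact (Finset.card_eq_sum_card_fiberwise (f := f) (s := univ) (t := univ)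
      (fun _ _ => mem_univ _)).symm
  have hsum2 : ∑ c, t c = mono f := by
    have e1 : (F.filter fun T => ∃ c, ∀ v ∈ T, f v = c) =
        (univ : Finset (Fin N)).biUnion fun c => F.filter fun T => T ⊆ cls c := by
      ext T
      simp only [mem_filter, mem_biUnion, mem_univ, true_and, hcls]
      constructor
      · rintro ⟨hT, c, hc⟩
        exact ⟨c, hT, fun v hv => mem_filter.mpr ⟨mem_univ _, hc v hv⟩⟩
      · rintro ⟨c, hT, hc⟩
        exact ⟨hT, c, fun v hv => (mem_filter.mp (hc hv)).2⟩
    rw [hmono]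
    simp only
    rw [e1, Finset.card_biUnion]
    intro c _ d _ hcd
    rw [Function.onFun, Finset.disjoint_left]
    intro T h1 h2
    rw [mem_filter] at h1 h2
    obtain ⟨v, hv⟩ := hne T h1.1
    have e2 := (mem_filter.mp (h1.2 hv)).2
    have e3 := (mem_filter.mp (h2.2 hv)).2
    exact hcd (e2.symm.trans e3)
  obtain ⟨c, hc⟩ : ∃ c : Fin N, Fintype.card V + N * t c ≤ N * (cls c).card + mono f := by
    have h1 : ∑ c : Fin N, (Fintype.card V + N * t c) ≤
        ∑ c : Fin N, (N * (cls c).card + mono f) := by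
      rw [Finset.sum_add_distrib, Finset.sum_add_distrib, ← Finset.mul_sum, ← Finset.mul_sum,
        hsum1, hsum2]
      simp
    obtain ⟨c, _, hc⟩ := Finset.exists_le_of_sum_le (Finset.univ_nonempty) h1
    exact ⟨c, hc⟩
  -- delete one vertex from every `T` in the class
  choose g hg using hne
  set D : Finset V := (F.filter fun T => T ⊆ cls c).attach.image
    (fun T => g T.1 (mem_filter.mp T.2).1) with hD
  refine ⟨cls c \ D, ?_, ?_⟩
  · intro T hT hTS
    have h1 : T ⊆ cls c := hTS.trans Finset.sdiff_subset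
    have h2 : g T hT ∈ D := Finset.mem_image.mpr
      ⟨⟨T, mem_filter.mpr ⟨hT, h1⟩⟩, Finset.mem_attach _ _, rfl⟩
    exact (Finset.mem_sdiff.mp (hTS (hg T hT))).2 h2
  · have h1 : (cls c).card ≤ (cls c \ D).card + t c := by
      have e1 : D.card ≤ t c := Finset.card_image_le.trans (by rw [Finset.card_attach])
      have e2 := Finset.card_le_card_sdiff_add_card (s := cls c) (t := D)
      omega
    have h2 : Fintype.card V ≤ N * (cls c \ D).card + mono f := by
      have := Nat.mul_le_mul_left N h1
      rw [mul_add] at this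
      omega
    calc Fintype.card V * N ^ k ≤ (N * (cls c \ D).card + mono f) * N ^ k :=
          Nat.mul_le_mul_right _ h2
      _ = (cls c \ D).card * N ^ (k + 1) + mono f * N ^ k := by ring
      _ ≤ (cls c \ D).card * N ^ (k + 1) + F.card := Nat.add_le_add_left hf _

end Pool.Agent.C4B
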