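import Mathlib

/-!
# Suprema under `x ↦ x / (1 + x)`
-/

namespace Pool.Agent.C4B

theorem sup_eq {A B : ℝ → Prop}
    (h1 : ∀ g e : ℝ, 0 < g → B g → 0 < e → e < g / (1 + g) → A e)
    (h2 : ∀ e g : ℝ, 0 < e → A e → 0 < g → g / (1 + g) < e → B g)
    (hB : ∃ g, 0 < g ∧ B g) (hb : ∀ g, 0 < g → B g → g ≤ 1) :
    sSup {e : ℝ | 0 < e ∧ A e} =
      sSup {g : ℝ | 0 < g ∧ B g} / (1 + sSup {g : ℝ | 0 < g ∧ B g}) := by
  set b := sSup {g : ℝ | 0 < g ∧ B g} with hbdef
  have hbdd : BddAbove {g : ℝ | 0 < g ∧ B g} := ⟨1, fun g hg => hb g hg.1 hg.2⟩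
  have hne : {g : ℝ | 0 < g ∧ B g}.Nonempty := hB
  have hle : ∀ g, 0 < g → B g → g ≤ b := fun g hg hBg => le_csSup hbdd ⟨hg, hBg⟩
  have hb0 : 0 < b := by
    obtain ⟨g, hg, hBg⟩ := hB
    exact lt_of_lt_of_le hg (hle g hg hBg)
  -- upper bound
  have hup : ∀ e, 0 < e → A e → e ≤ b / (1 + b) := by
    intro e he hAe
    by_contra hcon
    push Not at hcon
    have hφ1 : b / (1 + b) < 1 := by rw [div_lt_one (by linarith)]; linarith
    obtain ⟨t, ht1, ht2⟩ := exists_between (lt_min hcon hφ1)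
    have ht3 : t < e := lt_of_lt_of_le ht2 (min_le_left _ _)
    have ht4 : t < 1 := lt_of_lt_of_le ht2 (min_le_right _ _)
    have ht0 : 0 < t := lt_trans (by positivity) ht1
    have h1t : 0 < 1 - t := by linarith
    have hg : t / (1 - t) / (1 + t / (1 - t)) = t := by
      field_simp
      ring
    have hBg := h2 e (t / (1 - t)) he hAe (by positivity) (by rw [hg]; exact ht3)
    have h3 := hle _ (by positivity) hBg
    rw [div_lt_iff₀ (by linarith)] at ht1
    rw [div_le_iff₀ h1t] at h3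
    nlinarith
  have hbddA : BddAbove {e : ℝ | 0 < e ∧ A e} := ⟨b / (1 + b), fun e he => hup e he.1 he.2⟩
  have hneA : {e : ℝ | 0 < e ∧ A e}.Nonempty := by
    obtain ⟨g, hg, hBg⟩ := hB
    have hp : 0 < g / (1 + g) := by positivity
    exact ⟨g / (1 + g) / 2, by positivity, h1 g _ hg hBg (by positivity) (by linarith)⟩
  refine le_antisymm (csSup_le hneA fun e he => hup e he.1 he.2) ?_
  set a := sSup {e : ℝ | 0 < e ∧ A e} with hadef
  have ha1 : a ≤ b / (1 + b) := csSup_le hneA fun e he => hup e he.1 he.2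
  have ha2 : a < 1 := lt_of_le_of_lt ha1 (by rw [div_lt_one (by linarith)]; linarith)
  have h3 : ∀ g, 0 < g → B g → g / (1 + g) ≤ a := by
    intro g hg hBg
    refine le_of_forall_lt fun e he => ?_
    by_cases he0 : 0 < e
    · obtain ⟨e', he1, he2⟩ := exists_between he
      exact lt_of_lt_of_le he1 (le_csSup hbddA ⟨lt_trans he0 he1, h1 g e' hg hBg (lt_trans he0 he1) he2⟩)
    · push Not at he0
      obtain ⟨e', he'⟩ := hneA
      exact lt_of_le_of_lt he0 (lt_of_lt_of_le he'.1 (le_csSup hbddA he'))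
  have h4 : b ≤ a / (1 - a) := by
    refine csSup_le hne fun g hg => ?_
    have h5 := h3 g hg.1 hg.2
    have hg0 : 0 < g := hg.1
    rw [div_le_iff₀ (by linarith)] at h5
    rw [le_div_iff₀ (by linarith)]
    nlinarith
  rw [le_div_iff₀ (by linarith)] at h4
  rw [div_le_iff₀ (by linarith)]
  nlinarith

end Pool.Agent.C4B
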