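import Pool.Agent.C4B.Steps
import Pool.Agent.C4B.Sample
import Pool.Agent.C4B.Sup

/-!
# The exponent of the 4-cycle and graphs of bounded clique number
-/

set_option autoImplicit false
set_option linter.unusedSectionVars false

open Finset Filter

namespace Pool.Agent.C4B

/-- finite form: a large induced subgraph with clique number at most `k` -/
theorem finite_form {V : Type} [Fintype V] (G : SimpleGraph V)
    (h : IsEmpty (SimpleGraph.cycleGraph 4 ↪g G)) (k N : ℕ) (hN : 0 < N) :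
    ∃ S : Finset V, (sub G S).cliqueNum ≤ k ∧
      Fintype.card V * N ^ k ≤ #S * N ^ (k + 1) + (k + 1) * Fintype.card V ^ 3 * G.cliqueNum ^ k := by
  classical
  obtain ⟨S, hS1, hS2⟩ := exists_large_avoiding (cliques G (k + 1)) k N hN
    (fun T hT => ((mem_cliques G _ T).1 hT).1)
  exact ⟨S, sub_cliqueNum G S k hS1,
    hS2.trans (Nat.add_le_add_left (card_cliques_le (Pool.Agent.C4D.noC4_of h) k) _)⟩

/-- sampling: from bounded clique number to homogeneous sets -/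
theorem hom_of_bdd {g e : ℝ} (hg : 0 < g) (hB : BddExp g) (he : 0 < e) (heg : e < g / (1 + g)) :
    HomExp e := by
  classical
  obtain ⟨e', he1, he2⟩ := exists_between heg
  have h1g : 0 < 1 + g := by linarith
  have he2' : e' * (1 + g) < g := (lt_div_iff₀ h1g).1 he2
  have he'0 : 0 < e' := he.trans he1
  have he'1 : e' < 1 := by
    by_contra hcon
    push Not at hcon
    nlinarith
  have hμ : 0 < e' - e := by linarith
  obtain ⟨k, hk⟩ := exists_nat_gt (3 / (e' - e))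
  have hkμ : 3 ≤ k * (e' - e) := by
    rw [div_lt_iff₀ hμ] at hk
    exact hk.le
  obtain ⟨n1, hn1⟩ := hB k
  have hδ : 0 < (1 - e') * g - e := by nlinarith
  have T : Tendsto (fun n : ℕ => (n : ℝ)) atTop atTop := tendsto_natCast_atTop_atTop
  have E1 : ∀ᶠ n : ℕ in atTop, 2 * (k + 1) ≤ n := eventually_ge_atTop _
  have E2 : ∀ᶠ n : ℕ in atTop, 4 * ((n1 : ℝ) + 1) ≤ (n : ℝ) ^ (1 - e') :=
    ((tendsto_rpow_atTop (show 0 < 1 - e' by linarith)).comp T).eventually_ge_atTop _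
  have E3 : ∀ᶠ n : ℕ in atTop, (4 : ℝ) ^ g < (n : ℝ) ^ ((1 - e') * g - e) :=
    ((tendsto_rpow_atTop hδ).comp T).eventually_gt_atTop _
  obtain ⟨n0, hn0⟩ := eventually_atTop.1 (E1.and (E2.and E3))
  refine ⟨n0, fun V _ G hV hG => ?_⟩
  by_contra hlt
  push Not at hlt
  obtain ⟨hE1, hE2, hE3⟩ := hn0 _ hV
  have hα : (G.indepNum : ℝ) < (Fintype.card V : ℝ) ^ e := (le_max_left _ _).trans_lt hlt
  have hω : (G.cliqueNum : ℝ) < (Fintype.card V : ℝ) ^ e := (le_max_right _ _).trans_lt hlt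
  set n : ℕ := Fintype.card V with hn
  have hn1' : (1 : ℝ) ≤ n := by exact_mod_cast (by omega : 1 ≤ n)
  have hn0' : (0 : ℝ) < n := by linarith
  set N : ℕ := ⌈(n : ℝ) ^ e'⌉₊ with hNdef
  have hpow1 : 1 ≤ (n : ℝ) ^ e' := Real.one_le_rpow hn1' he'0.le
  have hN1 : (n : ℝ) ^ e' ≤ N := Nat.le_ceil _
  have hN2 : (N : ℝ) ≤ 2 * (n : ℝ) ^ e' := by
    have := Nat.ceil_lt_add_one (show 0 ≤ (n : ℝ) ^ e' by positivity)
    rw [← hNdef] at this
    linarith
  have hN0' : (0 : ℝ) < N := by linarith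
  have hN0 : 0 < N := by exact_mod_cast hN0'
  obtain ⟨S, hS1, hS2⟩ := finite_form G hG k N hN0
  have hbad : ((k + 1) * n ^ 3 * G.cliqueNum ^ k : ℝ) ≤ (k + 1) * (N : ℝ) ^ k := by
    have h1 : (G.cliqueNum : ℝ) ^ k ≤ ((n : ℝ) ^ e) ^ k :=
      pow_le_pow_left₀ (Nat.cast_nonneg _) hω.le k
    have h2 : ((n : ℝ) ^ e') ^ k ≤ (N : ℝ) ^ k := pow_le_pow_left₀ (by positivity) hN1 k
    have h3 := pow_bound hn1' k hkμ
    calc ((k + 1) * n ^ 3 * G.cliqueNum ^ k : ℝ) = (k + 1) * ((n : ℝ) ^ 3 * (G.cliqueNum : ℝ) ^ k) := by ring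
      _ ≤ (k + 1) * ((n : ℝ) ^ 3 * ((n : ℝ) ^ e) ^ k) := by gcongr
      _ ≤ (k + 1) * (N : ℝ) ^ k := by
          have := h3.trans h2
          gcongr
  have hS3 : (n : ℝ) * (N : ℝ) ^ k ≤ #S * (N : ℝ) ^ (k + 1) + (k + 1) * (N : ℝ) ^ k := by
    have h1 : ((n * N ^ k : ℕ) : ℝ) ≤ ((#S * N ^ (k + 1) + (k + 1) * n ^ 3 * G.cliqueNum ^ k : ℕ) : ℝ) := by
      exact_mod_cast hS2
    push_cast at h1
    linarith
  have hNk : (0 : ℝ) < (N : ℝ) ^ k := by positivity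
  have hS4 : (n : ℝ) ≤ #S * N + (k + 1) := by
    have h1 : (n : ℝ) * (N : ℝ) ^ k ≤ (#S * N + (k + 1)) * (N : ℝ) ^ k := by
      calc (n : ℝ) * (N : ℝ) ^ k ≤ _ := hS3
        _ = (#S * N + (k + 1)) * (N : ℝ) ^ k := by ring
    exact le_of_mul_le_mul_right h1 hNk
  have hE1' : (2 : ℝ) * (k + 1) ≤ n := by exact_mod_cast hE1
  have hS5 : (n : ℝ) ≤ 2 * (#S * N) := by linarith
  have hS6 : (n : ℝ) ^ (1 - e') / 4 ≤ #S := by
    have h1 : (n : ℝ) ^ (1 - e') * (n : ℝ) ^ e' = n := by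
      rw [← Real.rpow_add hn0', show 1 - e' + e' = (1 : ℝ) by ring, Real.rpow_one]
    have h2 : (n : ℝ) ≤ 4 * #S * (n : ℝ) ^ e' := by
      calc (n : ℝ) ≤ 2 * (#S * N) := hS5
        _ ≤ 2 * (#S * (2 * (n : ℝ) ^ e')) := by gcongr
        _ = 4 * #S * (n : ℝ) ^ e' := by ring
    have h3 : (n : ℝ) ^ (1 - e') * (n : ℝ) ^ e' ≤ (4 * #S) * (n : ℝ) ^ e' := by rw [h1]; exact h2
    have h4 := le_of_mul_le_mul_right h3 (by linarith : (0 : ℝ) < (n : ℝ) ^ e')
    linarith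
  have hcardS : Fintype.card {x // x ∈ S} = #S := Fintype.card_coe S
  have hS7 : n1 ≤ Fintype.card {x // x ∈ S} := by
    rw [hcardS]
    have : (n1 : ℝ) ≤ #S := by linarith
    exact_mod_cast this
  have h1 := hn1 {x // x ∈ S} (sub G S) hS7 (sub_free G hG S) hS1
  rw [hcardS] at h1
  have h2 : ((sub G S).indepNum : ℝ) ≤ G.indepNum := by exact_mod_cast sub_indepNum G S
  have h3 : ((n : ℝ) ^ (1 - e') / 4) ^ g ≤ (#S : ℝ) ^ g :=
    Real.rpow_le_rpow (by positivity) hS6 hg.le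
  rw [Real.div_rpow (by positivity) (by norm_num), ← Real.rpow_mul hn0'.le] at h3
  have h4 : (n : ℝ) ^ ((1 - e') * g) / 4 ^ g < (n : ℝ) ^ e := by linarith
  have h5 : (n : ℝ) ^ ((1 - e') * g) = (n : ℝ) ^ ((1 - e') * g - e) * (n : ℝ) ^ e := by
    rw [← Real.rpow_add hn0']
    congr 1
    ring
  have h4g : (0 : ℝ) < 4 ^ g := by positivity
  rw [div_lt_iff₀ h4g, h5] at h4
  have h6 : (n : ℝ) ^ ((1 - e') * g - e) * (n : ℝ) ^ e < 4 ^ g * (n : ℝ) ^ e := by linarith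
  have h7 := lt_of_mul_lt_mul_right h6 (by positivity)
  linarith

/-- the exponent `1/2` is admissible for every bounded clique number -/
theorem bdd_half : BddExp (1 / 2) := by
  classical
  intro k
  set s : ℝ := Real.sqrt (11796480 * k) with hs
  set M : ℝ := Real.exp (s + 1) + k with hM
  have hM0 : 0 < M := by positivity
  obtain ⟨n0, hn0⟩ := exists_nat_gt (424673280 * M ^ 3 + 3)
  refine ⟨n0, fun V _ G hV hG hk => ?_⟩
  by_contra hlt
  push Not at hlt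
  obtain ⟨h1, h2⟩ := Pool.Agent.C4D.four_final G hG
  set n : ℕ := Fintype.card V with hn
  have hnR : 424673280 * M ^ 3 + 3 < (n : ℝ) := hn0.trans_le (by exact_mod_cast hV)
  have hn0' : (0 : ℝ) < n := by nlinarith [pow_pos hM0 3]
  have hn3 : (3 : ℝ) < n := by nlinarith [pow_pos hM0 3]
  have hlog : 1 ≤ Real.log n := by
    rw [Real.le_log_iff_exp_le hn0']
    have := Real.exp_one_lt_d9
    linarith
  have h3 : (n : ℝ) ≤ 424673280 * max (G.indepNum : ℝ) G.cliqueNum ^ 3 := by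
    exact (le_mul_of_one_le_right hn0'.le (one_le_pow₀ hlog)).trans h2
  have hmax : M < max (G.indepNum : ℝ) G.cliqueNum := by
    by_contra hcon
    push Not at hcon
    have : max (G.indepNum : ℝ) G.cliqueNum ^ 3 ≤ M ^ 3 :=
      pow_le_pow_left₀ (by positivity) hcon 3
    linarith
  have hk' : (G.cliqueNum : ℝ) ≤ k := by exact_mod_cast hk
  have hexp : 0 < Real.exp (s + 1) := Real.exp_pos _
  have hα : M < G.indepNum := by
    rcases lt_max_iff.1 hmax with h | h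
    · exact h
    · exfalso; linarith
  have hs0 : 0 ≤ s := Real.sqrt_nonneg _
  have hk0 : (0 : ℝ) ≤ k := Nat.cast_nonneg k
  have hlogα : s + 1 < Real.log G.indepNum := by
    rw [Real.lt_log_iff_exp_lt (by linarith)]
    linarith
  have hsq : 11796480 * (k : ℝ) < Real.log G.indepNum ^ 2 := by
    have h4 : s ^ 2 = 11796480 * k := Real.sq_sqrt (by positivity)
    nlinarith
  have hα2 : (G.indepNum : ℝ) ^ 2 ≤ n := by
    have h5 : (G.indepNum : ℝ) ^ 2 ≤ ((n : ℝ) ^ (1 / 2 : ℝ)) ^ 2 :=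
      pow_le_pow_left₀ (Nat.cast_nonneg _) hlt.le 2
    rw [← Real.sqrt_eq_rpow, Real.sq_sqrt hn0'.le] at h5
    exact h5
  have h6 : 11796480 * (G.cliqueNum : ℝ) * (G.indepNum : ℝ) ^ 2 ≤ 11796480 * k * n := by gcongr
  nlinarith

/-- admissible exponents are at most `1` -/
theorem bdd_le_one (g : ℝ) (_hg : 0 < g) (hB : BddExp g) : g ≤ 1 := by
  classical
  obtain ⟨n0, hn0⟩ := hB 1
  have h1 := hn0 (Fin (n0 + 2)) ⊥ (by simp) ⟨fun f => by
    have h2 : (SimpleGraph.cycleGraph 4).Adj 0 1 := by decide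
    exact (f.map_adj_iff.2 h2)⟩ (by
      obtain ⟨s, hs⟩ := (⊥ : SimpleGraph (Fin (n0 + 2))).exists_isNClique_cliqueNum
      rw [← hs.card_eq]
      refine card_le_one.2 fun a ha b hb => ?_
      by_contra hab
      exact hs.isClique ha hb hab)
  have h3 : ((⊥ : SimpleGraph (Fin (n0 + 2))).indepNum : ℝ) ≤ ((n0 + 2 : ℕ) : ℝ) := by
    obtain ⟨s, hs⟩ := (⊥ : SimpleGraph (Fin (n0 + 2))).exists_isNIndepSet_indepNum
    have h4 := card_le_univ s
    rw [hs.card_eq, Fintype.card_fin] at h4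
    exact_mod_cast h4
  rw [Fintype.card_fin] at h1
  have h5 : ((n0 + 2 : ℕ) : ℝ) ^ g ≤ ((n0 + 2 : ℕ) : ℝ) ^ (1 : ℝ) := by
    rw [Real.rpow_one]
    exact h1.trans h3
  have h6 : (1 : ℝ) < ((n0 + 2 : ℕ) : ℝ) := by
    push_cast
    have : (0 : ℝ) ≤ n0 := Nat.cast_nonneg _
    linarith
  exact (Real.rpow_le_rpow_left_iff h6).1 h5

/-- the exponent of the 4-cycle is `γ / (1 + γ)` -/
theorem exponent_eq : sSup {e : ℝ | 0 < e ∧ HomExp e} =
    sSup {g : ℝ | 0 < g ∧ BddExp g} / (1 + sSup {g : ℝ | 0 < g ∧ BddExp g}) :=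
  sup_eq (fun _ _ hg hB he heg => hom_of_bdd hg hB he heg)
    (fun _ _ he hA hg hge => bdd_of_hom he hA hg hge) ⟨1 / 2, by norm_num, bdd_half⟩ bdd_le_one

theorem half_le_sup : 1 / 2 ≤ sSup {g : ℝ | 0 < g ∧ BddExp g} :=
  le_csSup ⟨1, fun g hg => bdd_le_one g hg.1 hg.2⟩ ⟨by norm_num, bdd_half⟩

theorem third_lt_iff : 1 / 3 < sSup {e : ℝ | 0 < e ∧ HomExp e} ↔ ∃ δ : ℝ, 0 < δ ∧ BddExp (1 / 2 + δ) := by
  have hb : BddAbove {g : ℝ | 0 < g ∧ BddExp g} := ⟨1, fun g hg => bdd_le_one g hg.1 hg.2⟩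
  have h0 := half_le_sup
  rw [exponent_eq]
  set c := sSup {g : ℝ | 0 < g ∧ BddExp g} with hc
  have h1 : 1 / 3 < c / (1 + c) ↔ 1 / 2 < c := by
    rw [lt_div_iff₀ (by linarith)]
    constructor <;> intro h <;> linarith
  rw [h1]
  constructor
  · intro h
    have hne : {g : ℝ | 0 < g ∧ BddExp g}.Nonempty := ⟨1 / 2, by norm_num, bdd_half⟩
    obtain ⟨g, hg, hg2⟩ := exists_lt_of_lt_csSup hne h
    exact ⟨g - 1 / 2, by linarith, by rw [show 1 / 2 + (g - 1 / 2) = g by ring]; exact hg.2⟩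
  · rintro ⟨δ, hδ, hB⟩
    have := le_csSup hb (show 1 / 2 + δ ∈ {g : ℝ | 0 < g ∧ BddExp g} from ⟨by linarith, hB⟩)
    linarith

theorem sup_le_one : sSup {g : ℝ | 0 < g ∧ BddExp g} ≤ 1 :=
  csSup_le ⟨1 / 2, by norm_num, bdd_half⟩ fun g hg => bdd_le_one g hg.1 hg.2

theorem isLUB_bdd : IsLUB {g : ℝ | 0 < g ∧ BddExp g} (sSup {g : ℝ | 0 < g ∧ BddExp g}) :=
  isLUB_csSup ⟨1 / 2, by norm_num, bdd_half⟩ ⟨1, fun g hg => bdd_le_one g hg.1 hg.2⟩

/-- the exponent of the 4-cycle is at most `1/2` -/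
theorem hom_le_half (e : ℝ) (he : 0 < e) (hA : HomExp e) : e ≤ 1 / 2 := by
  by_contra hcon
  push Not at hcon
  set t : ℝ := min e 1 with ht
  have ht1 : 1 / 2 < t := lt_min hcon (by norm_num)
  have ht2 : t ≤ e := min_le_left _ _
  have hlt : (t + 1 / 2) / (1 + (t + 1 / 2)) < t := by
    rw [div_lt_iff₀ (by linarith)]
    nlinarith
  have hB := bdd_of_hom he hA (show 0 < t + 1 / 2 by linarith) (hlt.trans_le ht2)
  have := bdd_le_one _ (by linarith) hB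
  linarith

theorem isLUB_hom : IsLUB {e : ℝ | 0 < e ∧ HomExp e} (sSup {e : ℝ | 0 < e ∧ HomExp e}) :=
  isLUB_csSup ⟨1 / 4, by norm_num, hom_of_bdd (g := 1 / 2) (by norm_num) bdd_half (by norm_num)
    (by norm_num)⟩ ⟨1 / 2, fun e he => hom_le_half e he.1 he.2⟩

/-- finite form in terms of vertex sets -/
theorem finite_sets {V : Type*} [Fintype V] (G : SimpleGraph V)
    (h : IsEmpty (SimpleGraph.cycleGraph 4 ↪g G)) (k N : ℕ) (hN : 0 < N) :
    ∃ S : Finset V, (∀ K ⊆ S, G.IsClique (K : Set V) → #K ≤ k) ∧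
      Fintype.card V * N ^ k ≤ #S * N ^ (k + 1) + (k + 1) * Fintype.card V ^ 3 * G.cliqueNum ^ k := by
  classical
  obtain ⟨S, hS1, hS2⟩ := exists_large_avoiding (cliques G (k + 1)) k N hN
    (fun T hT => ((mem_cliques G _ T).1 hT).1)
  refine ⟨S, fun K hKS hK => ?_,
    hS2.trans (Nat.add_le_add_left (card_cliques_le (Pool.Agent.C4D.noC4_of h) k) _)⟩
  by_contra hlt
  push Not at hlt
  obtain ⟨t, htK, htc⟩ := exists_subset_card_eq (show k + 1 ≤ #K by omega)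
  exact hS1 t ((mem_cliques G _ t).2 ⟨htc, hK.subset (by exact_mod_cast htK)⟩) (htK.trans hKS)

end Pool.Agent.C4B
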