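import Pool.Agent.C4B.Count

/-!
# Two steps between homogeneous sets and bounded clique number
-/

set_option autoImplicit false
set_option linter.unusedSectionVars false

open Finset Filter

namespace Pool.Agent.C4B

/-- every large graph without induced 4-cycle has a homogeneous set with `n ^ e` vertices -/
def HomExp (e : ℝ) : Prop := ∃ n₀ : ℕ, ∀ (V : Type) [Fintype V] (G : SimpleGraph V),
  n₀ ≤ Fintype.card V → IsEmpty (SimpleGraph.cycleGraph 4 ↪g G) →
    (Fintype.card V : ℝ) ^ e ≤ max (G.indepNum : ℝ) G.cliqueNum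

/-- for every `k`, every large graph without induced 4-cycle and with clique number at most `k` has an
independent set with `n ^ g` vertices -/
def BddExp (g : ℝ) : Prop := ∀ k : ℕ, ∃ n₀ : ℕ, ∀ (V : Type) [Fintype V] (G : SimpleGraph V),
  n₀ ≤ Fintype.card V → IsEmpty (SimpleGraph.cycleGraph 4 ↪g G) → G.cliqueNum ≤ k →
    (Fintype.card V : ℝ) ^ g ≤ G.indepNum

/-- blow-up: from homogeneous sets to bounded clique number -/
theorem bdd_of_hom {e g : ℝ} (he : 0 < e) (hA : HomExp e) (hg : 0 < g) (hge : g / (1 + g) < e) :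
    BddExp g := by
  classical
  intro k
  obtain ⟨n1, hn1⟩ := hA
  have h1g : 0 < 1 + g := by linarith
  have hδ : 0 < (1 + g) * e - g := by
    rw [div_lt_iff₀ h1g] at hge
    linarith
  have T : Tendsto (fun n : ℕ => (n : ℝ)) atTop atTop := tendsto_natCast_atTop_atTop
  have E1 : ∀ᶠ n : ℕ in atTop, n1 + 1 ≤ n := eventually_ge_atTop _
  have E2 : ∀ᶠ n : ℕ in atTop, (2 * k + 1 : ℝ) < (n : ℝ) ^ ((1 + g) * e - g) :=
    ((tendsto_rpow_atTop hδ).comp T).eventually_gt_atTop _
  obtain ⟨n0, hn0⟩ := eventually_atTop.1 (E1.and E2)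
  refine ⟨n0, fun V _ G hV hG hk => ?_⟩
  by_contra hlt
  push Not at hlt
  obtain ⟨hE1, hE2⟩ := hn0 _ hV
  set n : ℕ := Fintype.card V with hn
  have hn1' : (1 : ℝ) ≤ n := by exact_mod_cast (by omega : 1 ≤ n)
  have hn0' : (0 : ℝ) < n := by linarith
  set b : ℕ := ⌈(n : ℝ) ^ g⌉₊ with hb
  have hpow1 : 1 ≤ (n : ℝ) ^ g := Real.one_le_rpow hn1' hg.le
  have hb1 : (n : ℝ) ^ g ≤ b := Nat.le_ceil _
  have hb2 : (b : ℝ) ≤ 2 * (n : ℝ) ^ g := by
    have := Nat.ceil_lt_add_one (show 0 ≤ (n : ℝ) ^ g by positivity)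
    rw [← hb] at this
    linarith
  have hb0 : 0 < b := by
    have : (0 : ℝ) < b := by linarith
    exact_mod_cast this
  have hcard : Fintype.card (Σ v : V, Fin ((fun _ : V => b) v)) = n * b := by
    rw [Fintype.card_sigma]; simp [hn]
  have h1 := hn1 (Σ v : V, Fin ((fun _ : V => b) v)) (C4W.blow G (fun _ => b))
    (by rw [hcard]; nlinarith [hE1, hb0]) (C4W.blow_free hG _)
  rw [C4W.blow_indepNum G _ (fun _ => hb0), hcard] at h1
  obtain ⟨K, hK, hKb⟩ := C4W.blow_cliqueNum G (fun _ => b)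
  have hω : ((C4W.blow G (fun _ => b)).cliqueNum : ℝ) ≤ k * b := by
    have h2 : (C4W.blow G (fun _ => b)).cliqueNum ≤ k * b := by
      refine hKb.trans ?_
      rw [sum_const, smul_eq_mul]
      exact Nat.mul_le_mul_right _ (hK.card_le_cliqueNum.trans hk)
    exact_mod_cast h2
  have hup : max (G.indepNum : ℝ) ((C4W.blow G (fun _ => b)).cliqueNum : ℝ) ≤ (2 * k + 1) * (n : ℝ) ^ g := by
    have hk0 : (0 : ℝ) ≤ k := Nat.cast_nonneg k
    apply max_le
    · nlinarith
    · calc ((C4W.blow G (fun _ => b)).cliqueNum : ℝ) ≤ k * b := hω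
        _ ≤ k * (2 * (n : ℝ) ^ g) := mul_le_mul_of_nonneg_left hb2 hk0
        _ ≤ (2 * k + 1) * (n : ℝ) ^ g := by nlinarith
  have hlow : (n : ℝ) ^ ((1 + g) * e) ≤ (((n * b : ℕ) : ℝ)) ^ e := by
    rw [Real.rpow_mul hn0'.le]
    refine Real.rpow_le_rpow (by positivity) ?_ he.le
    rw [Real.rpow_add hn0', Real.rpow_one]
    push_cast
    exact mul_le_mul_of_nonneg_left hb1 hn0'.le
  have h3 : (n : ℝ) ^ ((1 + g) * e) = (n : ℝ) ^ ((1 + g) * e - g) * (n : ℝ) ^ g := by
    rw [← Real.rpow_add hn0']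
    congr 1
    ring
  have h4 := hlow.trans (h1.trans hup)
  rw [h3] at h4
  have h5 := le_of_mul_le_mul_right h4 (by linarith : (0 : ℝ) < (n : ℝ) ^ g)
  linarith

lemma pow_bound {n e e' : ℝ} (hn : 1 ≤ n) (k : ℕ) (hk : 3 ≤ k * (e' - e)) :
    n ^ 3 * (n ^ e) ^ k ≤ (n ^ e') ^ k := by
  have h0 : 0 < n := by linarith
  rw [← Real.rpow_natCast (n ^ e) k, ← Real.rpow_natCast (n ^ e') k, ← Real.rpow_mul h0.le,
    ← Real.rpow_mul h0.le, ← Real.rpow_natCast n 3, ← Real.rpow_add h0]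
  refine Real.rpow_le_rpow_of_exponent_le hn ?_
  push_cast
  nlinarith

section Induce

variable {V : Type} [Fintype V] (G : SimpleGraph V)

/-- the induced subgraph on a finite set -/
abbrev sub (S : Finset V) : SimpleGraph {x // x ∈ S} := G.comap (Function.Embedding.subtype (· ∈ S))

lemma sub_free (h : IsEmpty (SimpleGraph.cycleGraph 4 ↪g G)) (S : Finset V) :
    IsEmpty (SimpleGraph.cycleGraph 4 ↪g sub G S) :=
  ⟨fun f => h.false (f.trans (SimpleGraph.Embedding.comap (Function.Embedding.subtype (· ∈ S)) G))⟩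

lemma sub_indepNum (S : Finset V) : (sub G S).indepNum ≤ G.indepNum := by
  classical
  obtain ⟨s, hs⟩ := (sub G S).exists_isNIndepSet_indepNum
  have hind : G.IsIndepSet ((s.map (Function.Embedding.subtype (· ∈ S)) : Finset V) : Set V) := by
    intro a ha b hb hab hadj
    simp only [coe_map, Set.mem_image, mem_coe] at ha hb
    obtain ⟨x, hx, rfl⟩ := ha
    obtain ⟨y, hy, rfl⟩ := hb
    have hne : x ≠ y := fun e => hab (by rw [e])
    exact hs.isIndepSet hx hy hne hadj
  have h1 := hind.card_le_indepNum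
  rw [card_map, hs.card_eq] at h1
  exact h1

lemma sub_cliqueNum (S : Finset V) (k : ℕ) (hS : ∀ T ∈ cliques G (k + 1), ¬ T ⊆ S) :
    (sub G S).cliqueNum ≤ k := by
  classical
  by_contra hlt
  push Not at hlt
  obtain ⟨s, hs⟩ := (sub G S).exists_isNClique_cliqueNum
  obtain ⟨t, hts, htc⟩ := exists_subset_card_eq (show k + 1 ≤ #s by rw [hs.card_eq]; omega)
  refine hS (t.map (Function.Embedding.subtype (· ∈ S))) ?_ ?_
  · rw [mem_cliques, card_map]
    refine ⟨htc, ?_⟩
    intro a ha b hb hab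
    simp only [coe_map, Set.mem_image, mem_coe] at ha hb
    obtain ⟨x, hx, rfl⟩ := ha
    obtain ⟨y, hy, rfl⟩ := hb
    have hne : x ≠ y := fun e => hab (by rw [e])
    exact hs.isClique (hts hx) (hts hy) hne
  · intro x hx
    rw [Finset.mem_map] at hx
    obtain ⟨y, _, rfl⟩ := hx
    exact y.2

end Induce

end Pool.Agent.C4B
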